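import Pool.Agent.SPB.Defs

set_option autoImplicit false

/-!
# SPB-Pm: character sums over the random blow ups
-/

namespace Pool.Agent.SPB

/-- the sum over all sets of a product of signs -/
private theorem Pm_key {α : Type} [Fintype α] [DecidableEq α] (A : Finset α) :
    ∑ H : Finset α, ∏ x ∈ A, (if x ∈ H then (-1 : ℝ) else 1) =
      if A = ∅ then 2 ^ Fintype.card α else 0 := by
  have h : ∀ H : Finset α, ∏ x ∈ A, (if x ∈ H then (-1 : ℝ) else 1) =
      ∏ x ∈ H, (if x ∈ A then (-1 : ℝ) else 1) := by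
    intro H
    rw [Finset.prod_ite, Finset.prod_ite]
    simp only [Finset.prod_const, one_pow, mul_one, Finset.filter_mem_eq_inter]
    rw [Finset.inter_comm]
  simp only [h]
  have h2 := Finset.prod_add (fun x => if x ∈ A then (-1 : ℝ) else 1) (fun _ => (1 : ℝ))
    (Finset.univ : Finset α)
  simp only [Finset.prod_const_one, mul_one, Finset.powerset_univ] at h2
  rw [← h2]
  by_cases hA : A = ∅
  · rw [if_pos hA, hA]
    simp only [Finset.notMem_empty, if_false, Finset.prod_const, Finset.card_univ]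
    norm_num
  · rw [if_neg hA]
    obtain ⟨x, hx⟩ := Finset.nonempty_iff_ne_empty.2 hA
    exact Finset.prod_eq_zero (Finset.mem_univ x) (by simp [hx])

theorem wP_nonneg {m : ℕ} (H : Finset (Sym2 (Fin m))) : 0 ≤ wP H := by
  unfold wP
  rcases neg_one_pow_eq_or ℝ (H.filter fun x => ¬ x.IsDiag).card with h | h <;> rw [h] <;> norm_num

/-- the non diagonal elements -/
private def Pm_D (m : ℕ) : Finset (Sym2 (Fin m)) := Finset.univ.filter fun x => ¬ x.IsDiag

private theorem Pm_wP {m : ℕ} (H : Finset (Sym2 (Fin m))) :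
    wP H = 1 - ∏ x ∈ Pm_D m, (if x ∈ H then (-1 : ℝ) else 1) := by
  unfold wP Pm_D
  rw [Finset.prod_ite]
  simp only [Finset.prod_const, one_pow, mul_one]
  congr 3
  ext x
  simp [and_comm]

private theorem Pm_D_ne {m : ℕ} (hm : 2 ≤ m) : Pm_D m ≠ ∅ := by
  have h : s((⟨0, by omega⟩ : Fin m), (⟨1, by omega⟩ : Fin m)) ∈ Pm_D m := by
    unfold Pm_D
    simp [Sym2.mk_isDiag_iff]
  exact Finset.ne_empty_of_mem h

theorem wP_sum (m : ℕ) (hm : 2 ≤ m) :
    ∑ H : Finset (Sym2 (Fin m)), wP H = 2 ^ Fintype.card (Sym2 (Fin m)) := by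
  simp only [Pm_wP, Finset.sum_sub_distrib]
  rw [Pm_key, if_neg (Pm_D_ne hm)]
  simp

/-- the sum over `H` of `wP H` times a product of signs -/
private theorem Pm_H {m : ℕ} {A : Finset (Sym2 (Fin m))} (hA : A ≠ ∅) (hAD : A ⊆ Pm_D m) :
    ∑ H : Finset (Sym2 (Fin m)), wP H * ∏ x ∈ A, (if x ∈ H then (-1 : ℝ) else 1) =
      if Pm_D m ⊆ A then -(2 ^ Fintype.card (Sym2 (Fin m))) else 0 := by
  have h : ∀ H : Finset (Sym2 (Fin m)), wP H * ∏ x ∈ A, (if x ∈ H then (-1 : ℝ) else 1) =
      (∏ x ∈ A, (if x ∈ H then (-1 : ℝ) else 1)) -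
        ∏ x ∈ Pm_D m \ A, (if x ∈ H then (-1 : ℝ) else 1) := by
    intro H
    rw [Pm_wP, sub_mul, one_mul, ← Finset.prod_sdiff hAD, mul_assoc, ← Finset.prod_mul_distrib]
    congr 1
    have h1 : ∏ x ∈ A, ((if x ∈ H then (-1 : ℝ) else 1) * (if x ∈ H then (-1 : ℝ) else 1)) = 1 := by
      apply Finset.prod_eq_one
      intro x _
      split_ifs <;> norm_num
    rw [h1, mul_one]
  simp only [h, Finset.sum_sub_distrib]
  rw [Pm_key, Pm_key, if_neg hA, zero_sub]
  by_cases hD : Pm_D m ⊆ A
  · rw [if_pos hD, if_pos (Finset.sdiff_eq_empty_iff_subset.2 hD)]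
  · rw [if_neg hD, if_neg (fun e => hD (Finset.sdiff_eq_empty_iff_subset.1 e)), neg_zero]

private theorem Pm_chi {n m : ℕ} (l : Fin n → Fin m) (U : Finset (Fin n))
    (H : Finset (Sym2 (Fin m))) (C : Finset (Pr n)) :
    chi (K U) (GP l H C) =
      (∏ p ∈ (K U).filter (fun p => l p.1.1 = l p.1.2), (if p ∈ C then (-1 : ℝ) else 1)) *
      ∏ p ∈ (K U).filter (fun p => ¬ l p.1.1 = l p.1.2),
        (if s(l p.1.1, l p.1.2) ∈ H then (-1 : ℝ) else 1) := by
  rw [chi_eq_prod, ← Finset.prod_filter_mul_prod_filter_not (K U) (fun p => l p.1.1 = l p.1.2)]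
  congr 1
  · apply Finset.prod_congr rfl
    intro p hp
    rw [Finset.mem_filter] at hp
    unfold eps GP
    simp [hp.2]
  · apply Finset.prod_congr rfl
    intro p hp
    rw [Finset.mem_filter] at hp
    unfold eps GP
    simp [hp.2]

/-- the case of labels injective on `U` -/
private theorem Pm_inj {n m : ℕ} (hm : 2 ≤ m) {U : Finset (Fin n)} (hU : 2 ≤ U.card)
    {l : Fin n → Fin m} (hl : Set.InjOn l U) :
    ∑ H : Finset (Sym2 (Fin m)), wP H * ∏ p ∈ K U,
        (if s(l p.1.1, l p.1.2) ∈ H then (-1 : ℝ) else 1) =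
      if U.card = m then -(2 ^ Fintype.card (Sym2 (Fin m))) else 0 := by
  have hK : ∀ p : Pr n, p ∈ K U ↔ p.1.1 ∈ U ∧ p.1.2 ∈ U := by
    intro p
    unfold K
    simp
  -- injectivity on the pairs
  have hinj : Set.InjOn (fun p : Pr n => s(l p.1.1, l p.1.2)) (K U : Set (Pr n)) := by
    intro p hp p' hp' h
    rw [Finset.mem_coe, hK] at hp hp'
    simp only [Sym2.eq_iff] at h
    rcases h with ⟨h1, h2⟩ | ⟨h1, h2⟩
    · have e1 := hl hp.1 hp'.1 h1
      have e2 := hl hp.2 hp'.2 h2
      exact Subtype.ext (Prod.ext e1 e2)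
    · have e1 := hl hp.1 hp'.2 h1
      have e2 := hl hp.2 hp'.1 h2
      have h3 := p.2
      have h4 := p'.2
      rw [e1, e2] at h3
      exact absurd h3 (not_lt.2 h4.le)
  have hprod : ∀ H : Finset (Sym2 (Fin m)), ∏ p ∈ K U,
      (if s(l p.1.1, l p.1.2) ∈ H then (-1 : ℝ) else 1) =
      ∏ x ∈ (K U).image (fun p : Pr n => s(l p.1.1, l p.1.2)),
        (if x ∈ H then (-1 : ℝ) else 1) := by
    intro H
    rw [Finset.prod_image hinj]
  simp only [hprod]
  -- two different points give a pair
  have hpair : ∀ i ∈ U, ∀ j ∈ U, i ≠ j →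
      s(l i, l j) ∈ (K U).image (fun p : Pr n => s(l p.1.1, l p.1.2)) := by
    intro i hi j hj hij
    rw [Finset.mem_image]
    rcases lt_or_gt_of_ne hij with h | h
    · exact ⟨⟨(i, j), h⟩, (hK _).2 ⟨hi, hj⟩, rfl⟩
    · exact ⟨⟨(j, i), h⟩, (hK _).2 ⟨hj, hi⟩, Sym2.eq_swap⟩
  have hne : (K U).image (fun p : Pr n => s(l p.1.1, l p.1.2)) ≠ ∅ := by
    obtain ⟨i, hi, j, hj, hij⟩ := Finset.one_lt_card.1 (by omega : 1 < U.card)
    exact Finset.ne_empty_of_mem (hpair i hi j hj hij)
  have hsub : (K U).image (fun p : Pr n => s(l p.1.1, l p.1.2)) ⊆ Pm_D m := by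
    intro x hx
    rw [Finset.mem_image] at hx
    obtain ⟨p, hp, rfl⟩ := hx
    rw [hK] at hp
    unfold Pm_D
    rw [Finset.mem_filter, Sym2.mk_isDiag_iff]
    refine ⟨Finset.mem_univ _, fun h => ?_⟩
    have := hl hp.1 hp.2 h
    exact absurd this (ne_of_lt p.2)
  rw [Pm_H hne hsub]
  have hiff : Pm_D m ⊆ (K U).image (fun p : Pr n => s(l p.1.1, l p.1.2)) ↔ U.card = m := by
    have hcard : (U.image l).card = U.card := Finset.card_image_of_injOn hl
    have hle : U.card ≤ m := by
      rw [← hcard]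
      exact (Finset.card_le_univ _).trans (by simp)
    constructor
    · intro h
      have hall : ∀ a : Fin m, a ∈ U.image l := by
        intro a
        obtain ⟨b, hb⟩ : ∃ b : Fin m, b ≠ a := by
          have : Nontrivial (Fin m) := Fin.nontrivial_iff_two_le.2 hm
          exact exists_ne a
        have h1 : s(a, b) ∈ Pm_D m := by
          unfold Pm_D
          rw [Finset.mem_filter, Sym2.mk_isDiag_iff]
          exact ⟨Finset.mem_univ _, fun e => hb e.symm⟩
        have h2 := h h1
        rw [Finset.mem_image] at h2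
        obtain ⟨p, hp, hp2⟩ := h2
        rw [hK] at hp
        rw [Sym2.eq_iff] at hp2
        rcases hp2 with ⟨h3, -⟩ | ⟨-, h3⟩
        · exact Finset.mem_image.2 ⟨_, hp.1, h3⟩
        · exact Finset.mem_image.2 ⟨_, hp.2, h3⟩
      have h4 : (U.image l) = Finset.univ := Finset.eq_univ_iff_forall.2 hall
      rw [h4, Finset.card_univ, Fintype.card_fin] at hcard
      exact hcard.symm
    · intro h x hx
      have h4 : (U.image l) = Finset.univ := by
        apply Finset.eq_univ_of_card
        rw [hcard, h, Fintype.card_fin]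
      unfold Pm_D at hx
      rw [Finset.mem_filter] at hx
      revert hx
      refine Sym2.ind (fun a b => ?_) x
      intro hx
      rw [Sym2.mk_isDiag_iff] at hx
      have ha : a ∈ U.image l := by rw [h4]; exact Finset.mem_univ _
      have hb : b ∈ U.image l := by rw [h4]; exact Finset.mem_univ _
      rw [Finset.mem_image] at ha hb
      obtain ⟨i, hi, rfl⟩ := ha
      obtain ⟨j, hj, rfl⟩ := hb
      exact hpair i hi j hj fun e => hx.2 (by rw [e])
  simp only [hiff]

/-- the number of labellings injective on `U` -/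
private theorem Pm_count {n m : ℕ} {U : Finset (Fin n)} (hU : U.card = m) :
    Fintype.card {l : Fin n → Fin m // Set.InjOn l U} = m.factorial * m ^ (n - m) := by
  classical
  have e : {l : Fin n → Fin m // Set.InjOn l U} ≃
      ({x // x ∈ U} ↪ Fin m) × ({x // ¬ x ∈ U} → Fin m) :=
    { toFun := fun l => (⟨fun u => l.1 u.1, fun a b h => Subtype.ext (l.2 a.2 b.2 h)⟩,
        fun v => l.1 v.1)
      invFun := fun f => ⟨fun i => if h : i ∈ U then f.1 ⟨i, h⟩ else f.2 ⟨i, h⟩, by
        intro a ha b hb h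
        rw [Finset.mem_coe] at ha hb
        simp only [dif_pos ha, dif_pos hb] at h
        exact congrArg Subtype.val (f.1.injective h)⟩
      left_inv := by
        intro l
        apply Subtype.ext
        funext i
        by_cases h : i ∈ U
        · simp only [dif_pos h]
          rfl
        · simp only [dif_neg h]
      right_inv := by
        rintro ⟨f, g⟩
        refine Prod.ext ?_ ?_
        · ext u
          simp
        · funext v
          simp [v.2] }
  rw [Fintype.card_congr e, Fintype.card_prod, Fintype.card_embedding_eq, Fintype.card_fun,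
    Fintype.card_fin, Fintype.card_coe, hU, Nat.descFactorial_self]
  congr 2
  rw [Fintype.card_subtype_compl, Fintype.card_fin, Fintype.card_coe, hU]

theorem GP_sum (n m : ℕ) (hm : 2 ≤ m) (U : Finset (Fin n)) (hU : 2 ≤ U.card) :
    ∑ l : Fin n → Fin m, ∑ H : Finset (Sym2 (Fin m)), ∑ C : Finset (Pr n),
        wP H * chi (K U) (GP l H C) =
      if U.card = m then
        -(2 ^ Fintype.card (Sym2 (Fin m)) * 2 ^ Fintype.card (Pr n) * m.factorial * (m : ℝ) ^ (n - m))
      else 0 := by
  classical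
  have inner : ∀ l : Fin n → Fin m, ∑ H : Finset (Sym2 (Fin m)), ∑ C : Finset (Pr n),
      wP H * chi (K U) (GP l H C) = if Set.InjOn l U then
        (if U.card = m then -(2 ^ Fintype.card (Sym2 (Fin m)) * 2 ^ Fintype.card (Pr n)) else 0)
        else (0 : ℝ) := by
    intro l
    have h1 : ∀ H : Finset (Sym2 (Fin m)), ∑ C : Finset (Pr n), wP H * chi (K U) (GP l H C) =
        (wP H * ∏ p ∈ (K U).filter (fun p => ¬ l p.1.1 = l p.1.2),
          (if s(l p.1.1, l p.1.2) ∈ H then (-1 : ℝ) else 1)) *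
        (if (K U).filter (fun p => l p.1.1 = l p.1.2) = ∅ then 2 ^ Fintype.card (Pr n) else 0) := by
      intro H
      rw [← Pm_key, Finset.mul_sum]
      refine Finset.sum_congr rfl fun C _ => ?_
      rw [Pm_chi]
      ring
    simp only [h1]
    rw [← Finset.sum_mul]
    by_cases hl : Set.InjOn l U
    · rw [if_pos hl]
      have h2 : (K U).filter (fun p => l p.1.1 = l p.1.2) = ∅ := by
        apply Finset.filter_eq_empty_iff.2
        intro p hp h
        unfold K at hp
        simp only [Finset.mem_filter, Finset.mem_univ, true_and] at hp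
        exact absurd (hl hp.1 hp.2 h) (ne_of_lt p.2)
      have h3 : (K U).filter (fun p => ¬ l p.1.1 = l p.1.2) = K U := by
        apply Finset.filter_true_of_mem
        intro p hp h
        unfold K at hp
        simp only [Finset.mem_filter, Finset.mem_univ, true_and] at hp
        exact absurd (hl hp.1 hp.2 h) (ne_of_lt p.2)
      rw [h2, h3, if_pos rfl, Pm_inj hm hU hl]
      by_cases hc : U.card = m
      · rw [if_pos hc, if_pos hc]; ring
      · rw [if_neg hc, if_neg hc, zero_mul]
    · rw [if_neg hl]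
      have h2 : (K U).filter (fun p => l p.1.1 = l p.1.2) ≠ ∅ := by
        unfold Set.InjOn at hl
        push Not at hl
        obtain ⟨i, hi, j, hj, hij, hne⟩ := hl
        rw [Finset.mem_coe] at hi hj
        rcases lt_or_gt_of_ne hne with h | h
        · apply Finset.ne_empty_of_mem (a := (⟨(i, j), h⟩ : Pr n))
          unfold K
          simp [hi, hj, hij]
        · apply Finset.ne_empty_of_mem (a := (⟨(j, i), h⟩ : Pr n))
          unfold K
          simp [hi, hj, hij]
      rw [if_neg h2, mul_zero]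
  simp only [inner]
  by_cases hc : U.card = m
  · simp only [if_pos hc]
    rw [Finset.sum_ite, Finset.sum_const_zero, add_zero, Finset.sum_const, nsmul_eq_mul]
    have h4 : (Finset.univ.filter fun l : Fin n → Fin m => Set.InjOn l U).card =
        m.factorial * m ^ (n - m) := by
      rw [← Pm_count hc, Fintype.card_subtype]
    rw [h4]
    push_cast
    ring
  · simp only [if_neg hc, ite_self, Finset.sum_const_zero]

end Pool.Agent.SPB
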