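import Pool.Agent.SPB.Defs

set_option autoImplicit false

namespace Pool.Agent.SPB

theorem mass_nonneg (m : ℕ) : 0 ≤ mass m := by
  unfold mass
  apply div_nonneg _ (by positivity)
  apply mul_nonneg _ (by positivity)
  rcases neg_one_pow_eq_or ℝ m with h | h <;> rw [h] <;> norm_num

/-- the unsigned terms -/
private noncomputable def ser_r (m : ℕ) : ℝ := (m : ℝ) ^ m / (m.factorial * 3 ^ m)

private theorem ser_r_nonneg (m : ℕ) : 0 ≤ ser_r m := by
  unfold ser_r
  positivity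

private theorem ser_mass (m : ℕ) : mass m = (10 - 5 * (-1 : ℝ) ^ m) * ser_r m := by
  unfold mass ser_r
  ring

/-- ratio of consecutive terms -/
private theorem ser_ratio (m : ℕ) (hm : 1 ≤ m) : ser_r (m + 1) ≤ 10 / 11 * ser_r m := by
  have hm0 : (0 : ℝ) < m := by exact_mod_cast hm
  have h1 : (1 + 1 / (m : ℝ)) ^ m ≤ Real.exp 1 := by
    have h2 : 1 + 1 / (m : ℝ) ≤ Real.exp (1 / (m : ℝ)) := by
      have := Real.add_one_le_exp (1 / (m : ℝ))
      linarith
    calc (1 + 1 / (m : ℝ)) ^ m ≤ (Real.exp (1 / (m : ℝ))) ^ m :=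
          pow_le_pow_left₀ (by positivity) h2 m
      _ = Real.exp 1 := by
          rw [← Real.exp_nat_mul]
          congr 1
          field_simp
  have h3 : ((m : ℝ) + 1) ^ m ≤ 30 / 11 * (m : ℝ) ^ m := by
    have h4 : ((m : ℝ) + 1) ^ m = (1 + 1 / (m : ℝ)) ^ m * (m : ℝ) ^ m := by
      rw [← mul_pow]
      congr 1
      field_simp
    rw [h4]
    apply mul_le_mul_of_nonneg_right _ (by positivity)
    have := Real.exp_one_lt_d9
    linarith
  have h5 : ser_r (m + 1) = ((m : ℝ) + 1) ^ m / ((m.factorial : ℝ) * 3 ^ m) / 3 := by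
    unfold ser_r
    rw [Nat.factorial_succ]
    push_cast
    have : (m : ℝ) + 1 ≠ 0 := by positivity
    field_simp
    ring
  rw [h5]
  unfold ser_r
  rw [div_div, ← mul_div_assoc, div_le_div_iff₀ (by positivity) (by positivity)]
  have h6 : (0 : ℝ) ≤ (m.factorial : ℝ) * 3 ^ m := by positivity
  nlinarith [mul_le_mul_of_nonneg_right h3 h6]

private theorem ser_base : ∑ m ∈ Finset.Icc 2 13, mass m + (2310 - 55 * (-1 : ℝ) ^ 14) / 21 * ser_r 14 ≤ 13 := by
  have h : Finset.Icc 2 13 = ({2, 3, 4, 5, 6, 7, 8, 9, 10, 11, 12, 13} : Finset ℕ) := by decide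
  rw [h]
  simp only [ser_mass]
  unfold ser_r
  norm_num [Nat.factorial]

private theorem ser_ind (n : ℕ) (hn : 13 ≤ n) :
    ∑ m ∈ Finset.Icc 2 n, mass m + (2310 - 55 * (-1 : ℝ) ^ (n + 1)) / 21 * ser_r (n + 1) ≤ 13 := by
  induction n, hn using Nat.le_induction with
  | base => exact ser_base
  | succ n hn ih =>
    rw [Finset.sum_Icc_succ_top (by omega), ser_mass]
    have h1 := ser_ratio (n + 1) (by omega)
    have h2 : (0 : ℝ) ≤ (2310 - 55 * (-1 : ℝ) ^ (n + 1 + 1)) / 21 := by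
      rcases neg_one_pow_eq_or ℝ (n + 1 + 1) with h | h <;> rw [h] <;> norm_num
    have h3 := mul_le_mul_of_nonneg_left h1 h2
    have h4 : (-1 : ℝ) ^ (n + 1 + 1) = - (-1 : ℝ) ^ (n + 1) := by
      rw [pow_succ]
      ring
    rw [h4] at h3 ⊢
    linarith

/-- the sum of all masses is 12.275...; ratio of consecutive `m^m/(m! 3^m)` is less than `10/11` -/
theorem mass_sum (n : ℕ) : ∑ m ∈ Finset.Icc 2 n, mass m ≤ 13 := by
  have key : ∀ k : ℕ, 13 ≤ k → ∑ m ∈ Finset.Icc 2 k, mass m ≤ 13 := by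
    intro k hk
    have h1 := ser_ind k hk
    have h2 : (0 : ℝ) ≤ (2310 - 55 * (-1 : ℝ) ^ (k + 1)) / 21 := by
      rcases neg_one_pow_eq_or ℝ (k + 1) with h | h <;> rw [h] <;> norm_num
    have h3 := mul_nonneg h2 (ser_r_nonneg (k + 1))
    linarith
  calc ∑ m ∈ Finset.Icc 2 n, mass m ≤ ∑ m ∈ Finset.Icc 2 (n + 13), mass m :=
        Finset.sum_le_sum_of_subset_of_nonneg
          (Finset.Icc_subset_Icc_right (by omega)) (fun i _ _ => mass_nonneg i)
    _ ≤ 13 := key (n + 13) (by omega)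

end Pool.Agent.SPB
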