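import Pool.Agent.SPB.K5
import Pool.Agent.SPB.Pm
import Pool.Agent.SPB.Ser

set_option autoImplicit false

/-!
# SPB-Main: the measure and its consequences
-/

namespace Pool.Agent.SPB

/-- `t` is the list of clique coefficients of a nonnegative function of total mass `a` -/
def Rz (n : ℕ) (a : ℝ) (t : Finset (Fin n) → ℝ) : Prop :=
  ∃ m : Finset (Pr n) → ℝ, (∀ G, 0 ≤ m G) ∧ ∑ G, m G = a ∧
    ∀ U : Finset (Fin n), 2 ≤ U.card → ∑ G, m G * chi (K U) G = t U

theorem Rz.congr {n : ℕ} {a b : ℝ} {s t : Finset (Fin n) → ℝ} (h : Rz n a s) (hab : a = b)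
    (hst : ∀ U : Finset (Fin n), 2 ≤ U.card → s U = t U) : Rz n b t := by
  obtain ⟨m, h0, h1, h2⟩ := h
  exact ⟨m, h0, hab ▸ h1, fun U hU => (h2 U hU).trans (hst U hU)⟩

theorem Rz.add {n : ℕ} {a b : ℝ} {s t : Finset (Fin n) → ℝ} (h : Rz n a s) (h' : Rz n b t) :
    Rz n (a + b) (fun U => s U + t U) := by
  obtain ⟨m, h0, h1, h2⟩ := h
  obtain ⟨m', h0', h1', h2'⟩ := h'
  refine ⟨fun G => m G + m' G, fun G => add_nonneg (h0 G) (h0' G), ?_, fun U hU => ?_⟩
  · rw [Finset.sum_add_distrib, h1, h1']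
  · simp only [add_mul]
    rw [Finset.sum_add_distrib, h2 U hU, h2' U hU]

theorem Rz.smul {n : ℕ} {a : ℝ} {s : Finset (Fin n) → ℝ} (h : Rz n a s) {c : ℝ} (hc : 0 ≤ c) :
    Rz n (c * a) (fun U => c * s U) := by
  obtain ⟨m, h0, h1, h2⟩ := h
  refine ⟨fun G => c * m G, fun G => mul_nonneg hc (h0 G), ?_, fun U hU => ?_⟩
  · rw [← Finset.mul_sum, h1]
  · simp only [mul_assoc]
    rw [← Finset.mul_sum, h2 U hU]

theorem Rz_zero (n : ℕ) : Rz n 0 (fun _ => 0) :=
  ⟨fun _ => 0, fun _ => le_rfl, by simp, by simp⟩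

theorem Rz_sum {n : ℕ} {ι : Type} (J : Finset ι) (a : ι → ℝ) (s : ι → Finset (Fin n) → ℝ)
    (h : ∀ j ∈ J, Rz n (a j) (s j)) : Rz n (∑ j ∈ J, a j) (fun U => ∑ j ∈ J, s j U) := by
  classical
  induction J using Finset.induction_on with
  | empty => simpa using Rz_zero n
  | insert j J hj ih =>
    have h1 := (h j (Finset.mem_insert_self j J)).add
      (ih fun i hi => h i (Finset.mem_insert_of_mem hi))
    refine h1.congr (Finset.sum_insert hj).symm fun U _ => ?_
    show s j U + ∑ i ∈ J, s i U = _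
    rw [Finset.sum_insert hj]

theorem Rz_push {n : ℕ} {Ω : Type} [Fintype Ω] (w : Ω → ℝ) (hw : ∀ x, 0 ≤ w x)
    (g : Ω → Finset (Pr n)) :
    Rz n (∑ x, w x) (fun U => ∑ x, w x * chi (K U) (g x)) := by
  classical
  refine ⟨fun G => ∑ x, if g x = G then w x else 0, fun G => ?_, ?_, fun U _ => ?_⟩
  · exact Finset.sum_nonneg fun x _ => by split_ifs <;> simp [hw]
  · rw [Finset.sum_comm]
    exact Finset.sum_congr rfl fun x _ => by simp
  · simp only [Finset.sum_mul]
    rw [Finset.sum_comm]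
    refine Finset.sum_congr rfl fun x _ => ?_
    simp [ite_mul]

theorem sum_chi {n : ℕ} (E : Finset (Pr n)) (hE : E ≠ ∅) : ∑ G : Finset (Pr n), chi E G = 0 := by
  classical
  obtain ⟨p, hp⟩ := Finset.nonempty_iff_ne_empty.2 hE
  have h : ∀ G : Finset (Pr n), chi E (symmDiff G {p}) = - chi E G := by
    intro G
    rw [chi_eq_prod, chi_eq_prod, ← Finset.mul_prod_erase E _ hp, ← Finset.mul_prod_erase E _ hp]
    have h1 : eps (symmDiff G {p}) p = - eps G p := by
      unfold eps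
      by_cases h : p ∈ G <;> simp [Finset.mem_symmDiff, h]
    have h2 : ∏ x ∈ E.erase p, eps (symmDiff G {p}) x = ∏ x ∈ E.erase p, eps G x := by
      refine Finset.prod_congr rfl fun x hx => ?_
      have hx' : x ≠ p := Finset.ne_of_mem_erase hx
      unfold eps
      simp [Finset.mem_symmDiff, hx']
    rw [h1, h2, neg_mul]
  have h3 : ∑ G : Finset (Pr n), chi E G = ∑ G : Finset (Pr n), chi E (symmDiff G {p}) := by
    refine (Equiv.sum_comp (Function.Involutive.toPerm (fun G => symmDiff G ({p} : Finset (Pr n)))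
      (fun G => by simp [symmDiff_assoc])) (fun G => chi E G)).symm
  rw [Finset.sum_congr rfl (fun G _ => h G), Finset.sum_neg_distrib] at h3
  linarith

theorem K_ne_empty {n : ℕ} {U : Finset (Fin n)} (hU : 2 ≤ U.card) : K U ≠ ∅ := by
  obtain ⟨a, ha, b, hb, hab⟩ := Finset.one_lt_card.1 hU
  apply Finset.nonempty_iff_ne_empty.1
  rcases lt_or_gt_of_ne hab with h | h
  · exact ⟨⟨(a, b), h⟩, by simp [K, ha, hb]⟩
  · exact ⟨⟨(b, a), h⟩, by simp [K, ha, hb]⟩

theorem Rz_unif (n : ℕ) : Rz n 1 (fun _ => 0) := by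
  refine ⟨fun _ => 1 / 2 ^ Fintype.card (Pr n), fun _ => by positivity, ?_, fun U hU => ?_⟩
  · rw [Finset.sum_const, Finset.card_univ, Fintype.card_finset, nsmul_eq_mul]
    push_cast
    field_simp
  · rw [← Finset.mul_sum, sum_chi _ (K_ne_empty hU), mul_zero]

theorem Rz_K5 (n : ℕ) :
    Rz n 1 (fun U => -1 / 4 + 5 / 2 * (1 / 3) ^ U.card - 5 / 4 * (-1 / 3) ^ U.card) := by
  refine (Rz_push (n := n) (Ω := Fin n → Fin 6) (fun _ => 1 / 6 ^ n) (fun _ => by positivity)
    G5).congr ?_ fun U _ => ?_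
  · rw [Finset.sum_const, Finset.card_univ, nsmul_eq_mul]
    simp
  · rw [← Finset.mul_sum, K5_sum]
    field_simp

theorem Rz_P (n m : ℕ) (hm : 2 ≤ m) :
    Rz n 1 (fun U => if U.card = m then -((m.factorial : ℝ) / m ^ m) else 0) := by
  have hm0 : (m : ℝ) ≠ 0 := by
    have : m ≠ 0 := by omega
    exact_mod_cast this
  set c : ℝ := 1 / (m ^ n * 2 ^ Fintype.card (Sym2 (Fin m)) * 2 ^ Fintype.card (Pr n)) with hc
  have hc0 : 0 ≤ c := by positivity
  refine (Rz_push (n := n) (Ω := (Fin n → Fin m) × Finset (Sym2 (Fin m)) × Finset (Pr n))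
    (fun x => c * wP x.2.1) (fun x => mul_nonneg hc0 (wP_nonneg _))
    (fun x => GP x.1 x.2.1 x.2.2)).congr ?_ fun U hU => ?_
  · rw [← Finset.mul_sum, Fintype.sum_prod_type]
    simp only [Fintype.sum_prod_type]
    simp only [Finset.sum_const, Finset.card_univ, nsmul_eq_mul]
    rw [← Finset.mul_sum, wP_sum m hm]
    simp only [Fintype.card_fun, Fintype.card_fin, Fintype.card_finset]
    rw [hc]
    push_cast
    field_simp
  · simp only [mul_assoc]
    rw [← Finset.mul_sum, Fintype.sum_prod_type]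
    simp only [Fintype.sum_prod_type]
    rw [GP_sum n m hm U hU]
    split_ifs with h
    · have hmn : m ≤ n := by
        rw [← h]
        exact (Finset.card_le_univ U).trans (by simp)
      have h1 : (m : ℝ) ^ n = m ^ (n - m) * m ^ m := by
        rw [← pow_add]
        congr 1
        omega
      rw [hc, h1]
      field_simp
    · simp

/-- the measure -/
theorem Rz_main (n : ℕ) : Rz n (17 / 18) (fun _ => -1 / 18) := by
  have h5 := (Rz_K5 n).smul (c := 4 / 18) (by norm_num)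
  have hP := Rz_sum (n := n) (Finset.Icc 2 n) (fun m => mass m / 18 * 1)
    (fun m U => mass m / 18 * (if U.card = m then -((m.factorial : ℝ) / m ^ m) else 0))
    (fun m hm => (Rz_P n m (Finset.mem_Icc.1 hm).1).smul
      (div_nonneg (mass_nonneg m) (by norm_num)))
  have hS : ∑ m ∈ Finset.Icc 2 n, mass m / 18 * 1 ≤ 13 / 18 := by
    simp only [mul_one]
    rw [← Finset.sum_div]
    have := mass_sum n
    linarith
  have hU := (Rz_unif n).smul (c := 13 / 18 - ∑ m ∈ Finset.Icc 2 n, mass m / 18 * 1) (by linarith)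
  refine ((h5.add hP).add hU).congr (by ring) fun U hUc => ?_
  have hUn : U.card ≤ n := (Finset.card_le_univ U).trans (by simp)
  have h1 : ∑ m ∈ Finset.Icc 2 n,
      mass m / 18 * (if U.card = m then -((m.factorial : ℝ) / m ^ m) else 0) =
      mass U.card / 18 * -((U.card.factorial : ℝ) / U.card ^ U.card) := by
    rw [Finset.sum_eq_single U.card]
    · simp
    · intro m _ hm
      rw [if_neg (Ne.symm hm), mul_zero]
    · intro h
      exact absurd (Finset.mem_Icc.2 ⟨hUc, hUn⟩) h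
  rw [h1]
  set u := U.card with hu
  have hu0 : (u : ℝ) ≠ 0 := by
    have : u ≠ 0 := by omega
    exact_mod_cast this
  have hf : (u.factorial : ℝ) ≠ 0 := by positivity
  have h3 : mass u * ((u.factorial : ℝ) / u ^ u) = 10 * (1 / 3) ^ u - 5 * (-1 / 3) ^ u := by
    unfold mass
    have h4 : (-1 / 3 : ℝ) ^ u = (-1) ^ u * (1 / 3) ^ u := by
      rw [← mul_pow]
      norm_num
    rw [h4]
    have h5 : (1 / 3 : ℝ) ^ u = 1 / 3 ^ u := by rw [div_pow, one_pow]
    rw [h5]
    field_simp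
  have h6 : mass u / 18 * -((u.factorial : ℝ) / u ^ u) =
      -(1 / 18) * (mass u * ((u.factorial : ℝ) / u ^ u)) := by ring
  rw [h6, h3]
  ring

theorem exists_measure (n : ℕ) : ∃ m : Finset (Pr n) → ℝ, (∀ G, 0 ≤ m G) ∧ ∑ G, m G = 1 ∧
    1 / 18 ≤ m ∅ ∧ ∀ U : Finset (Fin n), 2 ≤ U.card → ∑ G, m G * chi (K U) G = 0 := by
  classical
  obtain ⟨m, h0, h1, h2⟩ := Rz_main n
  refine ⟨fun G => m G + if G = ∅ then 1 / 18 else 0, fun G => ?_, ?_, ?_, fun U hU => ?_⟩
  · refine add_nonneg (h0 G) ?_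
    split_ifs <;> norm_num
  · rw [Finset.sum_add_distrib, h1]
    simp
    norm_num
  · have := h0 ∅
    simp only [if_true]
    linarith
  · simp only [add_mul]
    rw [Finset.sum_add_distrib, h2 U hU]
    have h3 : ∑ G : Finset (Pr n), (if G = ∅ then (1 / 18 : ℝ) else 0) * chi (K U) G = 1 / 18 := by
      rw [Finset.sum_eq_single ∅]
      · simp [chi]
      · intro G _ hG
        simp [hG]
      · simp
    rw [h3]
    norm_num

/-- the number of edges in a vertex set is even with probability 1/2 -/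
theorem even_half {n : ℕ} {m : Finset (Pr n) → ℝ} (h1 : ∑ G, m G = 1) {E : Finset (Pr n)}
    (h : ∑ G, m G * chi E G = 0) : ∑ G with Even (E ∩ G).card, m G = 1 / 2 := by
  have h2 : ∀ G, m G * chi E G = 2 * (if Even (E ∩ G).card then m G else 0) - m G := by
    intro G
    unfold chi
    by_cases hG : Even (E ∩ G).card
    · rw [if_pos hG, hG.neg_one_pow]
      ring
    · rw [if_neg hG, (Nat.not_even_iff_odd.1 hG).neg_one_pow]
      ring
  rw [Finset.sum_congr rfl (fun G _ => h2 G), Finset.sum_sub_distrib, ← Finset.mul_sum, h1,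
    ← Finset.sum_filter] at h
  linarith

/-- no weights on the cliques give a better ratio bound -/
theorem ratio_barrier {n : ℕ} {m : Finset (Pr n) → ℝ} (h0 : ∀ G, 0 ≤ m G) (h1 : ∑ G, m G = 1)
    {c : ℝ} (hc : 0 < c) (hm : c ≤ m ∅)
    (h : ∀ U : Finset (Fin n), 2 ≤ U.card → ∑ G, m G * chi (K U) G = 0)
    (g : Finset (Fin n) → ℝ) (lam : ℝ) (hg : ∑ U with 2 ≤ U.card, g U = 1)
    (hlam : ∀ G, -lam ≤ ∑ U with 2 ≤ U.card, g U * chi (K U) G) : c ≤ lam / (1 + lam) := by
  classical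
  have h2 : ∑ G, m G * ∑ U with 2 ≤ U.card, g U * chi (K U) G = 0 := by
    simp only [Finset.mul_sum]
    rw [Finset.sum_comm]
    refine Finset.sum_eq_zero fun U hU => ?_
    have h3 := h U (Finset.mem_filter.1 hU).2
    have h4 : ∑ G, m G * (g U * chi (K U) G) = g U * ∑ G, m G * chi (K U) G := by
      rw [Finset.mul_sum]
      exact Finset.sum_congr rfl fun G _ => by ring
    rw [h4, h3, mul_zero]
  have h3 : ∑ U with 2 ≤ U.card, g U * chi (K U) (∅ : Finset (Pr n)) = 1 := by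
    rw [← hg]
    exact Finset.sum_congr rfl fun U _ => by simp [chi]
  rw [← Finset.add_sum_erase _ _ (Finset.mem_univ (∅ : Finset (Pr n))), h3] at h2
  have h4 : ∑ G ∈ Finset.univ.erase ∅, m G * (-lam) ≤
      ∑ G ∈ Finset.univ.erase ∅, m G * ∑ U with 2 ≤ U.card, g U * chi (K U) G :=
    Finset.sum_le_sum fun G _ => mul_le_mul_of_nonneg_left (hlam G) (h0 G)
  have h5 : ∑ G ∈ Finset.univ.erase ∅, m G * (-lam) = (1 - m ∅) * (-lam) := by
    rw [← Finset.sum_mul]
    congr 1
    rw [← h1, ← Finset.add_sum_erase _ _ (Finset.mem_univ (∅ : Finset (Pr n)))]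
    ring
  rw [h5] at h4
  have hm1 : m ∅ ≤ 1 := by
    rw [← h1]
    exact Finset.single_le_sum (fun G _ => h0 G) (Finset.mem_univ _)
  have h6 : m ∅ ≤ (1 - m ∅) * lam := by linarith
  have hlam0 : 0 < lam := by
    by_contra hl
    push_neg at hl
    have : (1 - m ∅) * lam ≤ 0 := mul_nonpos_of_nonneg_of_nonpos (by linarith) hl
    linarith
  rw [le_div_iff₀ (by linarith)]
  nlinarith

theorem chi_mul_sum {n : ℕ} (H H' G : Finset (Pr n)) :
    ∑ E, chi E H * chi E H' * chi E G = ∏ p, (1 + eps H p * eps H' p * eps G p) := by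
  rw [Finset.prod_one_add, Finset.powerset_univ]
  refine Finset.sum_congr rfl fun E _ => ?_
  rw [chi_eq_prod, chi_eq_prod, chi_eq_prod, ← Finset.prod_mul_distrib, ← Finset.prod_mul_distrib]

theorem eps_sq {n : ℕ} (G : Finset (Pr n)) (p : Pr n) : eps G p = 1 ∨ eps G p = -1 := by
  unfold eps
  by_cases h : p ∈ G <;> simp [h]

theorem chi_mul_sum_nonneg {n : ℕ} (H H' G : Finset (Pr n)) :
    0 ≤ ∑ E, chi E H * chi E H' * chi E G := by
  rw [chi_mul_sum]
  refine Finset.prod_nonneg fun p _ => ?_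
  rcases eps_sq H p with h | h <;> rcases eps_sq H' p with h' | h' <;>
    rcases eps_sq G p with h'' | h'' <;> rw [h, h', h''] <;> norm_num

theorem card_Pr (n : ℕ) : Fintype.card (Pr n) = n.choose 2 := by
  rw [Fintype.card_subtype, Finset.card_filter, ← Finset.univ_product_univ,
    Finset.sum_product_right]
  have h : ∀ j : Fin n, ∑ i : Fin n, (if i < j then 1 else 0) = (j : ℕ) := by
    intro j
    rw [← Finset.card_filter, ← Fin.card_Iio j]
    congr 1
    ext i
    simp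
  rw [Finset.sum_congr rfl fun j _ => h j, Fin.sum_univ_eq_sum_range (fun j => j) n,
    Finset.sum_range_id, Nat.choose_two_right]

/-- the square of the transform is feasible for the linear programme -/
theorem delsarte {n : ℕ} {m : Finset (Pr n) → ℝ} (h0 : ∀ G, 0 ≤ m G) (h1 : ∑ G, m G = 1)
    {c : ℝ} (hc : 0 < c) (hm : c ≤ m ∅)
    (h : ∀ U : Finset (Fin n), 2 ≤ U.card → ∑ G, m G * chi (K U) G = 0) :
    ∃ f : Finset (Pr n) → ℝ, (∀ E, 0 ≤ f E) ∧ f ∅ = 1 ∧
      (∀ U : Finset (Fin n), 2 ≤ U.card → f (K U) = 0) ∧ (∀ G, 0 ≤ ∑ E, f E * chi E G) ∧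
      c ^ 2 * 2 ^ (n.choose 2) ≤ ∑ E, f E := by
  classical
  have hexp : ∀ G : Finset (Pr n), ∑ E, (∑ H, m H * chi E H) ^ 2 * chi E G =
      ∑ H, ∑ H', m H * m H' * ∑ E, chi E H * chi E H' * chi E G := by
    intro G
    have h2 : ∀ E : Finset (Pr n), (∑ H, m H * chi E H) ^ 2 * chi E G =
        ∑ H, ∑ H', m H * m H' * (chi E H * chi E H' * chi E G) := by
      intro E
      rw [pow_two, Finset.sum_mul_sum, Finset.sum_mul]
      refine Finset.sum_congr rfl fun H _ => ?_
      rw [Finset.sum_mul]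
      exact Finset.sum_congr rfl fun H' _ => by ring
    rw [Finset.sum_congr rfl fun E _ => h2 E, Finset.sum_comm]
    refine Finset.sum_congr rfl fun H _ => ?_
    rw [Finset.sum_comm]
    exact Finset.sum_congr rfl fun H' _ => by rw [Finset.mul_sum]
  refine ⟨fun E => (∑ H, m H * chi E H) ^ 2, fun E => sq_nonneg _, ?_, fun U hU => ?_, fun G => ?_,
    ?_⟩
  · simp [chi, h1]
  · show (∑ H, m H * chi (K U) H) ^ 2 = 0
    rw [h U hU]
    norm_num
  · show 0 ≤ ∑ E, (∑ H, m H * chi E H) ^ 2 * chi E G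
    rw [hexp]
    exact Finset.sum_nonneg fun H _ => Finset.sum_nonneg fun H' _ =>
      mul_nonneg (mul_nonneg (h0 H) (h0 H')) (chi_mul_sum_nonneg H H' G)
  · have h3 : ∑ E, (∑ H, m H * chi E H) ^ 2 = ∑ E, (∑ H, m H * chi E H) ^ 2 * chi E (∅ : Finset (Pr n)) :=
      Finset.sum_congr rfl fun E _ => by simp [chi]
    show c ^ 2 * 2 ^ (n.choose 2) ≤ ∑ E, (∑ H, m H * chi E H) ^ 2
    rw [h3, hexp]
    have h4 : m ∅ * m ∅ * ∑ E, chi E (∅ : Finset (Pr n)) * chi E (∅ : Finset (Pr n)) *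
        chi E (∅ : Finset (Pr n)) = m ∅ * m ∅ * 2 ^ (n.choose 2) := by
      simp [chi, card_Pr]
    have h5 : m ∅ * m ∅ * 2 ^ (n.choose 2) ≤
        ∑ H, ∑ H', m H * m H' * ∑ E, chi E H * chi E H' * chi E (∅ : Finset (Pr n)) := by
      rw [← h4]
      refine (Finset.single_le_sum (f := fun H' => m ∅ * m H' * ∑ E, chi E (∅ : Finset (Pr n)) *
        chi E H' * chi E (∅ : Finset (Pr n))) (fun H' _ => mul_nonneg (mul_nonneg (h0 _) (h0 _))
          (chi_mul_sum_nonneg _ _ _)) (Finset.mem_univ ∅)).trans ?_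
      exact Finset.single_le_sum (f := fun H => ∑ H', m H * m H' * ∑ E, chi E H * chi E H' *
        chi E (∅ : Finset (Pr n))) (fun H _ => Finset.sum_nonneg fun H' _ =>
          mul_nonneg (mul_nonneg (h0 _) (h0 _)) (chi_mul_sum_nonneg _ _ _)) (Finset.mem_univ ∅)
    refine le_trans ?_ h5
    refine mul_le_mul_of_nonneg_right ?_ (by positivity)
    rw [← pow_two]
    exact pow_le_pow_left₀ hc.le hm 2

end Pool.Agent.SPB
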