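import Mathlib

set_option autoImplicit false

/-!
# SPB: spectral barrier for clique codes (MP_0ba87f_co), definitions

A graph on `n` labelled vertices is a set of pairs `i < j`.
-/

namespace Pool.Agent.SPB

/-- pairs `i < j` of vertices -/
abbrev Pr (n : ℕ) : Type := {p : Fin n × Fin n // p.1 < p.2}

/-- the clique on the vertex set `U` -/
def K {n : ℕ} (U : Finset (Fin n)) : Finset (Pr n) :=
  Finset.univ.filter fun p => p.1.1 ∈ U ∧ p.1.2 ∈ U

/-- the character `(-1)^(number of common edges)` -/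
def chi {n : ℕ} (E G : Finset (Pr n)) : ℝ := (-1) ^ (E ∩ G).card

/-- the sign of the pair `p` in `G` -/
def eps {n : ℕ} (G : Finset (Pr n)) (p : Pr n) : ℝ := if p ∈ G then -1 else 1

theorem chi_eq_prod {n : ℕ} (E G : Finset (Pr n)) : chi E G = ∏ p ∈ E, eps G p := by
  unfold chi eps
  rw [Finset.prod_ite]
  simp [Finset.filter_mem_eq_inter]

/-- the complete 5-partite graph with isolated vertices given by labels in `{0,...,5}` -/
def G5 {n : ℕ} (l : Fin n → Fin 6) : Finset (Pr n) :=
  Finset.univ.filter fun p => l p.1.1 ≠ l p.1.2 ∧ l p.1.1 ≠ 0 ∧ l p.1.2 ≠ 0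

/-- blow up of `H` by the labels `l`, with the edges of `C` inside the classes -/
def GP {n m : ℕ} (l : Fin n → Fin m) (H : Finset (Sym2 (Fin m))) (C : Finset (Pr n)) :
    Finset (Pr n) :=
  Finset.univ.filter fun p => if l p.1.1 = l p.1.2 then p ∈ C else s(l p.1.1, l p.1.2) ∈ H

/-- the weight of `H`: 2 if it has an odd number of edges (loops do not count), 0 otherwise -/
def wP {m : ℕ} (H : Finset (Sym2 (Fin m))) : ℝ :=
  1 - (-1) ^ (H.filter fun x => ¬ x.IsDiag).card

/-- masses -/
noncomputable def mass (m : ℕ) : ℝ := (10 - 5 * (-1 : ℝ) ^ m) * (m : ℝ) ^ m / (m.factorial * 3 ^ m)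

end Pool.Agent.SPB
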