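import Pool.Agent.SPB.Defs

set_option autoImplicit false

/-!
# SPB: the sum of a clique character over the complete 5-partite graphs

For labels `l` let `x s` be the product over `i` in `U` of `-1` for `l i = s + 1` and `1` otherwise.
With the sum `σ` and the product `π` of the `x s` the character is `(σ ^ 2 - 2 π σ - 7) / 8`
(induction on `U`, adding the largest vertex, and a check of the `32` sign vectors). The sums over
`l` of `x s * x t` and of `π * x s` factorise.
-/

namespace Pool.Agent.SPB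

open Finset

/-- the sign of the label `y` in the coordinate `s` -/
private def k5a (s : Fin 5) (y : Fin 6) : ℤ := if y = s.succ then -1 else 1

private def k5x {n : ℕ} (U : Finset (Fin n)) (l : Fin n → Fin 6) (s : Fin 5) : ℤ :=
  ∏ i ∈ U, k5a s (l i)

/-- the sign of a pair of labels -/
private def k5b (y z : Fin 6) : ℤ := if z ≠ y ∧ z ≠ 0 ∧ y ≠ 0 then -1 else 1

private def k5F (x : Fin 5 → ℤ) : ℤ := (∑ t, x t) ^ 2 - 2 * ((∏ t, x t) * ∑ t, x t) - 7

private def k5v (a b c d e : Bool) : Fin 5 → ℤ :=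
  ![bif a then 1 else -1, bif b then 1 else -1, bif c then 1 else -1, bif d then 1 else -1,
    bif e then 1 else -1]

private lemma k5_check : ∀ a b c d e : Bool, ∀ y : Fin 6,
    k5F (fun t => k5a t y * k5v a b c d e t) = k5F (k5v a b c d e) *
      (if y = 0 then 1 else ∏ t : Fin 5, if t.succ = y then 1 else k5v a b c d e t) := by
  decide +kernel

private lemma k5_fin (x : Fin 5 → ℤ) (hx : ∀ s, x s = 1 ∨ x s = -1) (y : Fin 6) :
    k5F (fun t => k5a t y * x t) = k5F x *
      (if y = 0 then 1 else ∏ t : Fin 5, if t.succ = y then 1 else x t) := by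
  have h : ∀ s, ∃ b : Bool, x s = bif b then 1 else -1 := by
    intro s
    rcases hx s with h | h
    · exact ⟨true, h⟩
    · exact ⟨false, h⟩
  choose b hb using h
  have hv : x = k5v (b 0) (b 1) (b 2) (b 3) (b 4) := by
    funext s
    fin_cases s
    · exact hb 0
    · exact hb 1
    · exact hb 2
    · exact hb 3
    · exact hb 4
  rw [hv]
  exact k5_check _ _ _ _ _ y

private lemma k5_b (y z : Fin 6) : k5b y z =
    if y = 0 then 1 else ∏ t : Fin 5, if t.succ = y then 1 else k5a t z := by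
  revert y z
  decide +kernel

private lemma k5x_pm {n : ℕ} (U : Finset (Fin n)) (l : Fin n → Fin 6) (s : Fin 5) :
    k5x U l s = 1 ∨ k5x U l s = -1 := by
  unfold k5x
  induction U using Finset.induction_on with
  | empty => left; rw [prod_empty]
  | insert a U ha ih =>
    rw [prod_insert ha]
    have h : k5a s (l a) = 1 ∨ k5a s (l a) = -1 := by
      unfold k5a
      split_ifs
      · exact Or.inr rfl
      · exact Or.inl rfl
    rcases h with h | h <;> rcases ih with h' | h' <;> rw [h, h'] <;> norm_num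

private lemma k5_fac {n : ℕ} (U : Finset (Fin n)) (l : Fin n → Fin 6) (y : Fin 6) :
    ∏ i ∈ U, k5b y (l i) =
      if y = 0 then 1 else ∏ t : Fin 5, if t.succ = y then 1 else k5x U l t := by
  by_cases hy : y = 0
  · rw [if_pos hy]
    refine prod_eq_one fun i _ => ?_
    rw [k5_b, if_pos hy]
  · rw [if_neg hy, prod_congr rfl fun i _ => k5_b y (l i)]
    simp only [if_neg hy]
    rw [prod_comm]
    refine prod_congr rfl fun t _ => ?_
    unfold k5x
    split_ifs
    · exact prod_eq_one fun _ _ => rfl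
    · rfl

private def k5e {n : ℕ} (l : Fin n → Fin 6) (p : Pr n) : ℤ := if p ∈ G5 l then -1 else 1

private lemma k5e_eq {n : ℕ} (l : Fin n → Fin 6) (p : Pr n) :
    k5e l p = k5b (l p.1.2) (l p.1.1) := by
  unfold k5e k5b G5
  simp only [mem_filter, mem_univ, true_and, ne_eq]

private lemma k5_insert {n : ℕ} (l : Fin n → Fin 6) (a : Fin n) (U : Finset (Fin n))
    (ha : ∀ i ∈ U, i < a) : ∏ p ∈ K (insert a U), k5e l p =
      (∏ i ∈ U, k5b (l a) (l i)) * ∏ p ∈ K U, k5e l p := by
  rw [← prod_filter_mul_prod_filter_not (K (insert a U)) (fun p => p.1.2 = a)]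
  congr 1
  · refine prod_nbij (fun p => p.1.1) ?_ ?_ ?_ ?_
    · intro p hp
      rw [mem_filter, K, mem_filter] at hp
      obtain ⟨⟨-, h1, h2⟩, h3⟩ := hp
      have h4 := p.2
      rw [mem_insert] at h1
      rcases h1 with h1 | h1
      · rw [h1, h3] at h4
        exact absurd h4 (lt_irrefl _)
      · exact h1
    · intro p hp q hq hpq
      rw [mem_coe, mem_filter] at hp hq
      exact Subtype.ext (Prod.ext hpq (hp.2.trans hq.2.symm))
    · intro i hi
      rw [mem_coe] at hi
      refine ⟨⟨(i, a), ha i hi⟩, ?_, rfl⟩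
      rw [mem_coe, mem_filter, K, mem_filter]
      exact ⟨⟨mem_univ _, mem_insert_of_mem hi, mem_insert_self a U⟩, rfl⟩
    · intro p hp
      rw [mem_filter] at hp
      rw [k5e_eq, hp.2]
  · refine prod_congr ?_ fun _ _ => rfl
    ext p
    have hp := p.2
    rw [mem_filter, K, mem_filter, K, mem_filter, mem_insert, mem_insert]
    constructor
    · rintro ⟨⟨-, h1, h2⟩, h3⟩
      have h4 : p.1.2 ∈ U := h2.resolve_left h3
      refine ⟨mem_univ _, h1.resolve_left fun h => ?_, h4⟩
      rw [h] at hp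
      exact absurd (ha _ h4) (not_lt.2 hp.le)
    · rintro ⟨-, h1, h2⟩
      exact ⟨⟨mem_univ _, Or.inr h1, Or.inr h2⟩, fun h => absurd (ha _ h2) (by rw [h]; exact lt_irrefl a)⟩

private lemma k5_sign {n : ℕ} (l : Fin n → Fin 6) (U : Finset (Fin n)) :
    8 * ∏ p ∈ K U, k5e l p = k5F (k5x U l) := by
  induction U using Finset.induction_on_max with
  | empty =>
    have h1 : K (∅ : Finset (Fin n)) = ∅ := by
      unfold K
      simp
    have h2 : k5x (∅ : Finset (Fin n)) l = fun _ => 1 := by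
      funext s
      unfold k5x
      rw [prod_empty]
    rw [h1, h2, prod_empty]
    unfold k5F
    simp
  | insert a U ha ih =>
    have hna : a ∉ U := fun h => lt_irrefl a (ha a h)
    have h1 : k5x (insert a U) l = fun t => k5a t (l a) * k5x U l t := by
      funext t
      unfold k5x
      rw [prod_insert hna]
    rw [h1, k5_fin _ (k5x_pm U l), k5_insert l a U ha, k5_fac, ← ih]
    ring

private lemma k5_sum {n : ℕ} (U : Finset (Fin n)) (φ : Fin 6 → ℤ) :
    ∑ l : Fin n → Fin 6, ∏ i ∈ U, φ (l i) = (∑ y, φ y) ^ U.card * 6 ^ (n - U.card) := by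
  have h1 : ∀ l : Fin n → Fin 6, ∏ i ∈ U, φ (l i) = ∏ i, if i ∈ U then φ (l i) else 1 := by
    intro l
    rw [prod_ite_mem, univ_inter]
  have h2 := prod_univ_sum (fun _ : Fin n => (univ : Finset (Fin 6)))
    (fun i y => if i ∈ U then φ y else (1 : ℤ))
  rw [Fintype.piFinset_univ] at h2
  rw [sum_congr rfl fun l _ => h1 l, ← h2]
  have h3 : ∀ i : Fin n, (∑ y : Fin 6, if i ∈ U then φ y else (1 : ℤ)) =
      if i ∈ U then ∑ y, φ y else 6 := by
    intro i
    split_ifs
    · rfl
    · simp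
  rw [prod_congr rfl fun i _ => h3 i, prod_ite, prod_const, prod_const]
  have h4 : (univ : Finset (Fin n)).filter (fun i => i ∈ U) = U := by
    ext i
    simp
  have h5 : ((univ : Finset (Fin n)).filter (fun i => i ∉ U)).card = n - U.card := by
    have h6 : (univ : Finset (Fin n)).filter (fun i => i ∉ U) = Uᶜ := by
      ext i
      simp
    rw [h6, card_compl, Fintype.card_fin]
  rw [h4, h5]

private lemma k5_two : ∀ s t : Fin 5, ∑ y : Fin 6, k5a s y * k5a t y =
    if s = t then 6 else 2 := by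
  decide +kernel

private lemma k5_pi : ∀ s : Fin 5, ∑ y : Fin 6, (∏ t : Fin 5, k5a t y) * k5a s y = -2 := by
  decide +kernel

private lemma k5_total {n : ℕ} (U : Finset (Fin n)) :
    ∑ l : Fin n → Fin 6, k5F (k5x U l) = 5 * (6 ^ U.card * 6 ^ (n - U.card)) +
      20 * (2 ^ U.card * 6 ^ (n - U.card)) - 10 * ((-2) ^ U.card * 6 ^ (n - U.card)) -
      7 * 6 ^ n := by
  unfold k5F
  rw [sum_sub_distrib, sum_sub_distrib, ← mul_sum]
  have h1 : ∑ l : Fin n → Fin 6, (∑ t, k5x U l t) ^ 2 =
      5 * (6 ^ U.card * 6 ^ (n - U.card)) + 20 * (2 ^ U.card * 6 ^ (n - U.card)) := by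
    have h2 : ∀ l : Fin n → Fin 6, (∑ t, k5x U l t) ^ 2 =
        ∑ s : Fin 5, ∑ t : Fin 5, ∏ i ∈ U, (k5a s (l i) * k5a t (l i)) := by
      intro l
      rw [pow_two, sum_mul_sum]
      refine sum_congr rfl fun s _ => sum_congr rfl fun t _ => ?_
      unfold k5x
      rw [prod_mul_distrib]
    rw [sum_congr rfl fun l _ => h2 l, sum_comm]
    have h3 : ∀ s : Fin 5, ∑ l : Fin n → Fin 6, ∑ t : Fin 5,
        ∏ i ∈ U, (k5a s (l i) * k5a t (l i)) =
        6 ^ U.card * 6 ^ (n - U.card) + 4 * (2 ^ U.card * 6 ^ (n - U.card)) := by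
      intro s
      rw [sum_comm]
      have h4 : ∀ t : Fin 5, ∑ l : Fin n → Fin 6, ∏ i ∈ U, (k5a s (l i) * k5a t (l i)) =
          if s = t then 6 ^ U.card * 6 ^ (n - U.card) else 2 ^ U.card * 6 ^ (n - U.card) := by
        intro t
        rw [k5_sum U (fun y => k5a s y * k5a t y), k5_two]
        split_ifs <;> rfl
      rw [sum_congr rfl fun t _ => h4 t, ← add_sum_erase _ _ (mem_univ s), if_pos rfl]
      congr 1
      rw [sum_congr rfl (g := fun _ => (2 : ℤ) ^ U.card * 6 ^ (n - U.card))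
        fun t ht => if_neg (ne_of_mem_erase ht).symm, sum_const, card_erase_of_mem (mem_univ s)]
      simp
    rw [sum_congr rfl fun s _ => h3 s, sum_const]
    simp
    ring
  have h2 : ∑ l : Fin n → Fin 6, (∏ t, k5x U l t) * ∑ t, k5x U l t =
      5 * ((-2) ^ U.card * 6 ^ (n - U.card)) := by
    have h3 : ∀ l : Fin n → Fin 6, (∏ t, k5x U l t) * ∑ t, k5x U l t =
        ∑ s : Fin 5, ∏ i ∈ U, ((∏ t : Fin 5, k5a t (l i)) * k5a s (l i)) := by
      intro l
      rw [mul_sum]
      refine sum_congr rfl fun s _ => ?_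
      unfold k5x
      rw [prod_comm, ← prod_mul_distrib]
    rw [sum_congr rfl fun l _ => h3 l, sum_comm]
    have h4 : ∀ s : Fin 5, ∑ l : Fin n → Fin 6,
        ∏ i ∈ U, ((∏ t : Fin 5, k5a t (l i)) * k5a s (l i)) =
        (-2) ^ U.card * 6 ^ (n - U.card) := by
      intro s
      rw [k5_sum U (fun y => (∏ t : Fin 5, k5a t y) * k5a s y), k5_pi]
    rw [sum_congr rfl fun s _ => h4 s, sum_const]
    simp
  rw [h1, h2, sum_const, card_univ, Fintype.card_fun, Fintype.card_fin, Fintype.card_fin]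
  simp
  ring

theorem K5_sum (n : ℕ) (U : Finset (Fin n)) :
    ∑ l : Fin n → Fin 6, chi (K U) (G5 l) =
      6 ^ n * (-1 / 4 + 5 / 2 * (1 / 3) ^ U.card - 5 / 4 * (-1 / 3) ^ U.card) := by
  have hcard : U.card ≤ n := by
    have h := card_le_univ U
    rwa [Fintype.card_fin] at h
  have h1 : ∀ l : Fin n → Fin 6, 8 * chi (K U) (G5 l) = ((k5F (k5x U l) : ℤ) : ℝ) := by
    intro l
    rw [← k5_sign, chi_eq_prod]
    push_cast
    congr 1
    refine prod_congr rfl fun p _ => ?_
    unfold eps k5e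
    split_ifs
    · norm_num
    · norm_num
  have h2 := congrArg (fun z : ℤ => (z : ℝ)) (k5_total U)
  push_cast at h2
  rw [← sum_congr rfl fun l _ => h1 l, ← mul_sum] at h2
  obtain ⟨m, hm⟩ : ∃ m, n = U.card + m := ⟨n - U.card, by omega⟩
  have e1 : n - U.card = m := by omega
  have e2 : (6 : ℝ) ^ n = 6 ^ U.card * 6 ^ m := by
    rw [← pow_add, ← hm]
  have e3 : (2 : ℝ) ^ U.card = 6 ^ U.card * (1 / 3) ^ U.card := by
    rw [← mul_pow]
    norm_num
  have e4 : (-2 : ℝ) ^ U.card = 6 ^ U.card * (-1 / 3) ^ U.card := by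
    rw [← mul_pow]
    norm_num
  rw [e1, e3, e4, e2] at h2
  rw [e2]
  linarith

end Pool.Agent.SPB
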